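import Pool.Agent.H.MP_294a04_nt.D

set_option autoImplicit false

namespace Pool.Agent.Results.MP_294a04_nt.BothBad

open Filter

/-- distance to the nearest integer -/
noncomputable def nd (x : ℝ) : ℝ := |x - round x|

/-- minimum of the products over `1 ≤ q ≤ Q` -/
noncomputable def mQ (ξ ζ : ℝ) (Q : ℕ) : ℝ :=
  sInf {y : ℝ | ∃ q : ℕ, 1 ≤ q ∧ q ≤ Q ∧ y = nd (q * ξ) * nd (q * ζ)}

/-- the upper limit, taken in the extended reals -/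
noncomputable def D (ξ ζ : ℝ) : EReal :=
  limsup (fun Q : ℕ => (((Q : ℝ) * mQ ξ ζ Q : ℝ) : EReal)) atTop

/-- badly approximable -/
def Bad (ξ : ℝ) : Prop := ∃ c : ℝ, 0 < c ∧ ∀ q : ℕ, 1 ≤ q → c ≤ q * nd (q * ξ)

theorem result : (∃ ξ ζ : ℝ, Bad ξ ∧ Bad ζ ∧ 0 < D ξ ζ) ∧
    ∀ ζ : ℝ, Bad ζ → ∃ ξ : ℝ, Bad ξ ∧ 0 < D ξ ζ := by
  have key : ∀ ζ : ℝ, Bad ζ → ∃ ξ : ℝ, Bad ξ ∧ 0 < D ξ ζ := by
    rintro ζ ⟨c, hc, h⟩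
    obtain ⟨ξ, h1, ⟨ε, hε, h2⟩, -⟩ := Pool.Agent.H.MP_294a04_nt.main ζ c hc h
    refine ⟨ξ, h1, lt_of_lt_of_le (show (0 : EReal) < (ε : EReal) by exact_mod_cast hε) ?_⟩
    refine le_limsup_of_frequently_le ?_
    rw [frequently_atTop]
    intro N
    obtain ⟨Q, hQ, hQ0, h3⟩ := h2 N
    refine ⟨Q, hQ, ?_⟩
    have Q0 : (0 : ℝ) < Q := by exact_mod_cast hQ0
    have : ε / Q ≤ mQ ξ ζ Q := by
      refine le_csInf ⟨_, 1, le_rfl, hQ0, rfl⟩ ?_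
      rintro y ⟨q, hq, hqQ, rfl⟩
      rw [div_le_iff₀ Q0, mul_comm]
      exact h3 q hq hqQ
    rw [div_le_iff₀ Q0, mul_comm] at this
    exact_mod_cast this
  have hb : Bad (Real.sqrt 2) := ⟨1 / 4, by norm_num, Pool.Agent.H.MP_294a04_nt.sqrt_two_bad⟩
  obtain ⟨ξ, h1, h2⟩ := key _ hb
  exact ⟨⟨ξ, _, h1, hb, h2⟩, key⟩

end Pool.Agent.Results.MP_294a04_nt.BothBad
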